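import Pool.Agent.H225R3.SccProof

open Quaternion Topology
open Pool.Agent.H225R3.CV Pool.Agent.H225R3.Scc

namespace Pool.Agent.Results.MP_1d68f0_gt.NotSpanning

/-- For `G = PGL₁(ℍ_ℚ)` and the closed surface of genus two there are a Zariski open, conjugation
invariant subset `Ω` of `Hom(π₁(S), G(ℝ))`, whose quotient `Ω/G(ℝ)` is diffeomorphic to an open
subset of `ℝ⁶` (so that all `f_γ` are differentiable), and a connected component of `Ω/G(ℝ)` on
which no collection of differentiable class functions is spanning. -/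
theorem result : ∃ (Ω : Set (Rep 2 PH)) (U : Set (Fin 6 → ℝ)) (e : Quo Ω ≃ₜ U),
    IsZariskiOpen coordP Ω ∧ ConjInvariant Ω ∧ IsNaturalChart e ∧
    (∀ (f : PH → ℝ) (γ : SurfaceGroup 2) (y : Quo Ω), IsDiffClass f →
      DifferentiableAt ℝ (fCoord e f γ) (e y)) ∧
    ∃ x : Quo Ω, ∀ F : Set (PH → ℝ), (∀ f ∈ F, IsDiffClass f) →
      ¬ IsSpanning e (connectedComponent x) F :=
  main

end Pool.Agent.Results.MP_1d68f0_gt.NotSpanning
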